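import Pool.Agent.Helper67.BraidMain

set_option autoImplicit false

namespace Pool.Agent.Results.MP_e319d1_co.BraidGraphMedian

open Pool.Agent.Helper67.BraidGraph

universe u v

/-- In every simply-laced Coxeter system (of any rank, triangles allowed), the braid graph of every
reduced expression is a median graph. -/
theorem result {S : Type u} {W : Type v} [Group W] (M : CoxeterMatrix S)
    (_hM : IsSimplyLaced M) (cs : CoxeterSystem M W) (α : List S) (hα : cs.IsReduced α) :
    IsMedianGraph (braidGraph M α) :=
  braidGraph_median M cs α hα

end Pool.Agent.Results.MP_e319d1_co.BraidGraphMedian
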